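import Mathlib

/-!
# Choosing coefficients on grids such that countably many sums are bounded below
-/

set_option autoImplicit false

open Filter Topology Set

namespace Pool.Agent.V1174.UI

/-- the counting lemma on a finite product -/
lemma counting {ι : Type*} [Fintype ι] [DecidableEq ι] (N : ι → ℕ) (hN : ∀ i, 0 < N i)
    (Bad : ι → (∀ i, Fin (N i)) → Prop)
    (hBad : ∀ i x v v', Bad i (Function.update x i v) → Bad i (Function.update x i v') → v = v')
    (hsum : ∑ i, (1 : ℝ) / N i < 1) : ∃ x, ∀ i, ¬ Bad i x := by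
  classical
  by_contra hcon
  push Not at hcon
  set B : ι → Finset (∀ i, Fin (N i)) := fun i => Finset.univ.filter (fun x => Bad i x) with hB
  have h1 : (Finset.univ : Finset (∀ i, Fin (N i))) = Finset.univ.biUnion B := by
    ext x
    simp only [Finset.mem_univ, Finset.mem_biUnion, true_and, true_iff]
    obtain ⟨i, hi⟩ := hcon x
    exact ⟨i, by simp [hB, hi]⟩
  have h2 : ∀ i, (B i).card * N i ≤ Fintype.card (∀ i, Fin (N i)) := by
    intro i
    have h3 : ((B i) ×ˢ (Finset.univ : Finset (Fin (N i)))).card ≤
        (Finset.univ : Finset (∀ i, Fin (N i))).card := by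
      apply Finset.card_le_card_of_injOn (fun q => Function.update q.1 i q.2)
      · intro q _
        exact Finset.mem_coe.2 (Finset.mem_univ _)
      · rintro ⟨x, v⟩ hx ⟨x', v'⟩ hx' heq
        simp only at heq
        have hxB : Bad i x := by
          have := Finset.mem_coe.1 hx
          rw [Finset.mem_product] at this
          simpa [hB] using this.1
        have hxB' : Bad i x' := by
          have := Finset.mem_coe.1 hx'
          rw [Finset.mem_product] at this
          simpa [hB] using this.1
        have hv : v = v' := by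
          have := congrFun heq i
          simpa using this
        have hoff : ∀ j, j ≠ i → x j = x' j := by
          intro j hj
          have := congrFun heq j
          simpa [Function.update_of_ne hj] using this
        have e1 : x = Function.update x' i (x i) := by
          funext j
          by_cases hj : j = i
          · subst hj
            simp
          · rw [Function.update_of_ne hj, hoff j hj]
        have e2 : x' = Function.update x' i (x' i) := by simp
        have h4 : x i = x' i := by
          apply hBad i x' (x i) (x' i)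
          · rw [← e1]; exact hxB
          · rw [← e2]; exact hxB'
        have h5 : x = x' := by
          rw [e1, h4, ← e2]
        rw [h5, hv]
    rw [Finset.card_product, Finset.card_univ, Fintype.card_fin, Finset.card_univ] at h3
    exact h3
  have h3 : Fintype.card (∀ i, Fin (N i)) ≤ ∑ i, (B i).card := by
    rw [← Finset.card_univ, h1]
    exact Finset.card_biUnion_le
  have hpos : (0 : ℝ) < (Fintype.card (∀ i, Fin (N i)) : ℝ) := by
    have : 0 < Fintype.card (∀ i, Fin (N i)) := by
      rw [Fintype.card_pos_iff]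
      exact ⟨fun i => ⟨0, hN i⟩⟩
    exact_mod_cast this
  have h4 : ∀ i, ((B i).card : ℝ) ≤ (Fintype.card (∀ i, Fin (N i)) : ℝ) * (1 / N i) := by
    intro i
    have hNi : (0 : ℝ) < (N i : ℝ) := by exact_mod_cast hN i
    rw [mul_one_div, le_div_iff₀ hNi]
    exact_mod_cast h2 i
  have h5 : (Fintype.card (∀ i, Fin (N i)) : ℝ) ≤
      ∑ i, (Fintype.card (∀ i, Fin (N i)) : ℝ) * (1 / N i) := by
    calc (Fintype.card (∀ i, Fin (N i)) : ℝ) ≤ ((∑ i, (B i).card : ℕ) : ℝ) := by exact_mod_cast h3
      _ = ∑ i, ((B i).card : ℝ) := by push_cast; rfl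
      _ ≤ _ := Finset.sum_le_sum (fun i _ => h4 i)
  rw [← Finset.mul_sum] at h5
  nlinarith

/-- the choice of coefficients: `b m n` is the matrix, with `b n n = 1`. -/
theorem choose_coeff (M : ℕ → ℕ) (hM : ∀ n, 1 ≤ M n) (w : ℕ → ℝ) (hw : ∀ n, 0 < w n)
    (b : ℕ → ℕ → ℂ) (hb : ∀ n, b n n = 1) (hs : ∀ n, Summable (fun m => w m * ‖b m n‖))
    (hsum : ∀ F : Finset ℕ, ∑ n ∈ F, (1 : ℝ) / (M n + 1) < 1) :
    ∃ θ : ℕ → ℝ, (∀ m, 0 ≤ θ m ∧ θ m ≤ 1) ∧
      ∀ n, w n / (2 * M n) ≤ ‖∑' m, ((θ m * w m : ℝ) : ℂ) * b m n‖ := by
  classical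
  set L : ℕ → (∀ m, Fin (M m + 1)) → ℂ := fun n t =>
    ∑' m, ((((t m : ℕ) : ℝ) / M m * w m : ℝ) : ℂ) * b m n with hL
  have hM0 : ∀ m, (0 : ℝ) < M m := fun m => by exact_mod_cast hM m
  have hθ : ∀ (t : ∀ m, Fin (M m + 1)) m, 0 ≤ ((t m : ℕ) : ℝ) / M m ∧ ((t m : ℕ) : ℝ) / M m ≤ 1 := by
    intro t m
    constructor
    · have := hM0 m
      positivity
    · rw [div_le_one (hM0 m)]
      have : (t m : ℕ) ≤ M m := Nat.lt_succ_iff.1 (t m).2
      exact_mod_cast this
  have hbound : ∀ n (t : ∀ m, Fin (M m + 1)) m,
      ‖((((t m : ℕ) : ℝ) / M m * w m : ℝ) : ℂ) * b m n‖ ≤ w m * ‖b m n‖ := by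
    intro n t m
    rw [norm_mul, Complex.norm_real, Real.norm_of_nonneg (mul_nonneg (hθ t m).1 (hw m).le)]
    have h1 := (hθ t m).2
    have h2 := hw m
    have h3 := norm_nonneg (b m n)
    have : ((t m : ℕ) : ℝ) / M m * w m ≤ w m := by nlinarith
    gcongr
  have hcont : ∀ n, Continuous (L n) := by
    intro n
    apply continuous_tsum (u := fun m => w m * ‖b m n‖) _ (hs n) (fun m t => hbound n t m)
    intro m
    apply Continuous.mul _ continuous_const
    apply Complex.continuous_ofReal.comp
    apply Continuous.mul _ continuous_const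
    apply Continuous.div_const
    have : Continuous (fun v : Fin (M m + 1) => ((v : ℕ) : ℝ)) := continuous_of_discreteTopology
    exact this.comp (continuous_apply m)
  -- two values of one coordinate
  have hdiff : ∀ n (x : ∀ m, Fin (M m + 1)) (v v' : Fin (M n + 1)),
      ‖L n (Function.update x n v)‖ < w n / (2 * M n) →
      ‖L n (Function.update x n v')‖ < w n / (2 * M n) → v = v' := by
    intro n x v v' h1 h2
    have hsm : ∀ t : (∀ m, Fin (M m + 1)), Summable (fun m => ((((t m : ℕ) : ℝ) / M m * w m : ℝ) : ℂ) * b m n) :=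
      fun t => Summable.of_norm_bounded (hs n) (fun m => hbound n t m)
    have h3 : L n (Function.update x n v) - L n (Function.update x n v') =
        (((((v : ℕ) : ℝ) - ((v' : ℕ) : ℝ)) / M n * w n : ℝ) : ℂ) := by
      rw [hL]
      simp only
      rw [← (hsm _).tsum_sub (hsm _)]
      rw [tsum_eq_single n]
      · rw [Function.update_self, Function.update_self, hb n]
        push_cast
        ring
      · intro m hm
        rw [Function.update_of_ne hm, Function.update_of_ne hm, sub_self]
    have h4 : |(((v : ℕ) : ℝ) - ((v' : ℕ) : ℝ)) / M n * w n| < w n / M n := by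
      have h5 := norm_sub_le (L n (Function.update x n v)) (L n (Function.update x n v'))
      rw [h3, Complex.norm_real, Real.norm_eq_abs] at h5
      have h6 : w n / (2 * M n) + w n / (2 * M n) = w n / M n := by
        have := hM0 n
        field_simp
        norm_num
      linarith
    have h5 : |((v : ℕ) : ℝ) - ((v' : ℕ) : ℝ)| < 1 := by
      rw [abs_mul, abs_div, abs_of_pos (hM0 n), abs_of_pos (hw n), div_mul_eq_mul_div] at h4
      rw [div_lt_div_iff_of_pos_right (hM0 n)] at h4
      have := hw n
      by_contra hcon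
      rw [not_lt] at hcon
      nlinarith
    rw [abs_lt] at h5
    have h6 : ((v : ℕ) : ℝ) < ((v' : ℕ) : ℝ) + 1 := by linarith
    have h7 : ((v' : ℕ) : ℝ) < ((v : ℕ) : ℝ) + 1 := by linarith
    have h8 : (v : ℕ) < (v' : ℕ) + 1 := by exact_mod_cast h6
    have h9 : (v' : ℕ) < (v : ℕ) + 1 := by exact_mod_cast h7
    exact Fin.ext (by omega)
  -- closed sets with the finite intersection property
  set C : ℕ → Set (∀ m, Fin (M m + 1)) := fun n => {t | w n / (2 * M n) ≤ ‖L n t‖} with hC
  have hclosed : ∀ n, IsClosed (C n) := fun n =>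
    isClosed_le continuous_const (hcont n).norm
  have hfin : ∀ F : Finset ℕ, (⋂ n ∈ F, C n).Nonempty := by
    intro F
    set ext : (∀ i : F, Fin (M i + 1)) → (∀ m, Fin (M m + 1)) := fun x m =>
      if h : m ∈ F then x ⟨m, h⟩ else 0 with hext
    have hupd : ∀ (i : F) x v, ext (Function.update x i v) = Function.update (ext x) (i : ℕ) v := by
      intro i x v
      funext m
      by_cases hm : m ∈ F
      · by_cases hmi : m = i
        · subst hmi
          simp [hext]
        · have h1 : (⟨m, hm⟩ : F) ≠ i := fun h => hmi (congrArg Subtype.val h)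
          rw [Function.update_of_ne hmi]
          simp only [hext, hm, dif_pos, Function.update_of_ne h1]
      · have hmi : m ≠ i := fun h => hm (h ▸ i.2)
        rw [Function.update_of_ne hmi]
        simp only [hext, hm, dif_neg, not_false_eq_true]
    obtain ⟨x, hx⟩ := counting (fun i : F => M i + 1) (fun i => Nat.succ_pos _)
      (fun i x => ‖L i (ext x)‖ < w i / (2 * M i)) (by
        intro i x v v' h1 h2
        rw [hupd] at h1 h2
        exact hdiff i (ext x) v v' h1 h2) (by
        have := hsum F
        rw [← Finset.sum_coe_sort] at this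
        push_cast
        exact this)
    refine ⟨ext x, ?_⟩
    simp only [mem_iInter]
    intro n hn
    have := hx ⟨n, hn⟩
    exact not_lt.1 this
  obtain ⟨t, ht⟩ := CompactSpace.iInter_nonempty hclosed hfin
  rw [mem_iInter] at ht
  exact ⟨fun m => ((t m : ℕ) : ℝ) / M m, fun m => hθ t m, fun n => ht n⟩

end Pool.Agent.V1174.UI
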