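import Pool.Agent.V1174.UI.Sep
import Pool.Agent.V1174.UI.Cho

/-!
# Universal interpolation implies the existence of a function with large derivatives
-/

set_option autoImplicit false

open Filter Topology Metric Set

namespace Pool.Agent.V1174.UI

noncomputable section

theorem main (a : ℕ → ℂ) (p : ℕ → ℕ) (hinj : Function.Injective a) (hp : ∀ n, 1 ≤ p n)
    (hU : Univ a p) :
    ∃ f : ℂ → ℂ, E f ∧ (∃ z, f z ≠ 0) ∧
      (∀ n, ∀ k < p n, iteratedDeriv k f (a n) = 0) ∧
      ∃ ε > (0:ℝ), ∃ c > (0:ℝ), ∀ n,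
        ε * Real.exp (-(c * rho (a n))) ≤
          ‖iteratedDeriv (p n) f (a n)‖ / ((p n).factorial : ℝ) := by
  obtain ⟨K, hK, hunit⟩ := uniform_units a p hU
  have hsumm := summable_weights hinj hp hK hunit
  have hg : ∀ n, ∃ g : ℂ → ℂ, Bd K g ∧ UnitDat a p n (p n - 1) g := fun n =>
    hunit n (p n - 1) (by have := hp n; omega)
  choose g hg1 hg2 using hg
  have hjet : ∀ m n j, j < p n → ¬ (n = m ∧ j = p m - 1) → iteratedDeriv j (g m) (a n) = 0 := by
    intro m n j hj hne
    have h1 := hg2 m n j hj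
    rw [if_neg hne, div_eq_zero_iff] at h1
    rcases h1 with h1 | h1
    · exact h1
    · exact absurd h1 (by exact_mod_cast (Nat.factorial_pos j).ne')
  have htop : ∀ n, iteratedDeriv (p n - 1) (g n) (a n) = ((p n - 1).factorial : ℂ) := by
    intro n
    have h1 := hg2 n n (p n - 1) (by have := hp n; omega)
    rw [if_pos ⟨rfl, rfl⟩, div_eq_one_iff_eq (by exact_mod_cast (Nat.factorial_pos _).ne')] at h1
    exact h1
  set h : ℕ → ℂ → ℂ := fun m z => (z - a m) * g m z with hh
  have hhd : ∀ m, Differentiable ℂ (h m) := fun m =>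
    (differentiable_id.sub_const _).mul (hg1 m).1
  have hhj : ∀ m n j, j < p n → iteratedDeriv j (h m) (a n) = 0 := by
    intro m n j hj
    rw [hh]
    simp only
    rw [iter_sub_mul (hg1 m).1]
    simp only
    by_cases hmn : n = m
    · subst hmn
      rw [sub_self, zero_mul, zero_add]
      rcases j with _ | j
      · simp
      · rw [Nat.add_sub_cancel, hjet n n j (by omega) (by omega), mul_zero]
    · rw [hjet m n j hj (by tauto), hjet m n (j - 1) (by omega) (by tauto), mul_zero, mul_zero,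
        add_zero]
  have hht : ∀ n, iteratedDeriv (p n) (h n) (a n) = ((p n).factorial : ℂ) := by
    intro n
    rw [hh]
    simp only
    rw [iter_sub_mul (hg1 n).1]
    simp only
    rw [sub_self, zero_mul, zero_add, htop n]
    obtain ⟨k, hk⟩ : ∃ k, p n = k + 1 := ⟨p n - 1, by have := hp n; omega⟩
    rw [hk, Nat.add_sub_cancel, Nat.factorial_succ]
    push_cast
    ring
  set w : ℕ → ℝ := fun m => Real.exp (-((2 * K + 3) * rho (a m))) with hw
  have hw0 : ∀ m, 0 < w m := fun m => Real.exp_pos _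
  set s : ℕ → ℝ := fun m => Real.exp (-((2 * K + 2) * rho (a m))) with hs
  have hws : ∀ m, w m * (1 + ‖a m‖) ≤ 2 * s m := by
    intro m
    have h1 := one_add_norm_le (a m)
    calc w m * (1 + ‖a m‖) ≤ w m * (2 * Real.exp (rho (a m))) := by
          have := (hw0 m).le
          gcongr
      _ = 2 * s m := by
          rw [hw, hs]
          simp only
          rw [show -((2 * K + 2) * rho (a m)) = -((2 * K + 3) * rho (a m)) + rho (a m) by ring,
            Real.exp_add]
          ring
  have hb0 : ∀ (θ : ℕ → ℝ), (∀ m, 0 ≤ θ m ∧ θ m ≤ 1) → ∀ m z,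
      ‖((θ m * w m : ℝ) : ℂ) * h m z‖ ≤ 2 * s m * ((1 + ‖z‖) * (K * Real.exp (K * rho z))) := by
    intro θ hθ m z
    have h1 : ‖z - a m‖ ≤ (1 + ‖a m‖) * (1 + ‖z‖) := by
      have := norm_sub_le z (a m)
      nlinarith [norm_nonneg z, norm_nonneg (a m)]
    have h2 : ‖h m z‖ ≤ ((1 + ‖a m‖) * (1 + ‖z‖)) * (K * Real.exp (K * rho z)) := by
      rw [hh]
      simp only
      rw [norm_mul]
      have := (hg1 m).2 z
      gcongr
    rw [norm_mul, Complex.norm_real, Real.norm_of_nonneg (mul_nonneg (hθ m).1 (hw0 m).le)]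
    calc θ m * w m * ‖h m z‖ ≤ 1 * w m * (((1 + ‖a m‖) * (1 + ‖z‖)) * (K * Real.exp (K * rho z))) := by
          have h3 := (hθ m).1
          have h4 := (hθ m).2
          have h5 := (hw0 m).le
          have h6 : θ m * w m ≤ 1 * w m := by gcongr
          have h7 := norm_nonneg (h m z)
          have h8 : 0 ≤ 1 * w m := by positivity
          exact mul_le_mul h6 h2 h7 h8
      _ = (w m * (1 + ‖a m‖)) * ((1 + ‖z‖) * (K * Real.exp (K * rho z))) := by ring
      _ ≤ 2 * s m * ((1 + ‖z‖) * (K * Real.exp (K * rho z))) := by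
          have := hws m
          gcongr
  have hloc : ∀ (θ : ℕ → ℝ), (∀ m, 0 ≤ θ m ∧ θ m ≤ 1) →
      LocSum (fun m z => ((θ m * w m : ℝ) : ℂ) * h m z) := by
    intro θ hθ R
    refine ⟨fun m => 2 * s m * ((1 + |R|) * (K * Real.exp (K * (|R| + Real.log (1 + |R| ^ 2))))),
      (hsumm.mul_left 2).mul_right _, fun m z hz => (hb0 θ hθ m z).trans ?_⟩
    have h1 : ‖z‖ ≤ |R| := hz.trans (le_abs_self R)
    have h2 := rho_le_of_norm_le h1
    have h3 : 0 ≤ s m := (Real.exp_pos _).le
    show 2 * s m * ((1 + ‖z‖) * (K * Real.exp (K * rho z))) ≤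
      2 * s m * ((1 + |R|) * (K * Real.exp (K * (|R| + Real.log (1 + |R| ^ 2)))))
    gcongr
  have hdF : ∀ (θ : ℕ → ℝ) m, Differentiable ℂ (fun z => ((θ m * w m : ℝ) : ℂ) * h m z) :=
    fun θ m => (hhd m).const_mul _
  have hit : ∀ (θ : ℕ → ℝ) m j z, iteratedDeriv j (fun z => ((θ m * w m : ℝ) : ℂ) * h m z) z =
      ((θ m * w m : ℝ) : ℂ) * iteratedDeriv j (h m) z := by
    intro θ m j z
    rw [iteratedDeriv_const_mul_field]
  -- the matrix
  set b : ℕ → ℕ → ℂ := fun m n => iteratedDeriv (p n) (h m) (a n) / ((p n).factorial : ℂ) with hbdef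
  have hfac : ∀ n, (0 : ℝ) < ((p n).factorial : ℝ) := fun n => by
    exact_mod_cast Nat.factorial_pos _
  have hfacC : ∀ n, ((p n).factorial : ℂ) ≠ 0 := fun n => by
    exact_mod_cast (Nat.factorial_pos _).ne'
  have hbd : ∀ n, b n n = 1 := by
    intro n
    rw [hbdef]
    simp only
    rw [hht n, div_self (hfacC n)]
  have hbs : ∀ n, Summable (fun m => w m * ‖b m n‖) := by
    intro n
    obtain ⟨u, hu1, hu2⟩ := locSum_iter (hdF (fun _ => 1))
      (hloc (fun _ => 1) (fun _ => ⟨zero_le_one, le_rfl⟩)) (p n) ‖a n‖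
    have h1 : Summable (fun m => u m / ((p n).factorial : ℝ)) := hu1.div_const _
    apply Summable.of_nonneg_of_le (fun m => by have := (hw0 m).le; positivity) _ h1
    intro m
    have h2 : ‖iteratedDeriv (p n) (fun z => ((((fun _ => 1 : ℕ → ℝ) m) * w m : ℝ) : ℂ) * h m z)
      (a n)‖ ≤ u m := hu2 m (a n) le_rfl
    rw [hit (fun _ => 1), norm_mul, Complex.norm_real, Real.norm_of_nonneg (by
      have := (hw0 m).le
      positivity), one_mul] at h2
    rw [hbdef]
    simp only
    rw [norm_div, Complex.norm_natCast, ← mul_div_assoc]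
    exact div_le_div_of_nonneg_right h2 (hfac n).le
  -- the grids
  set S : ℝ := ∑' m, s m with hS
  have hs0 : ∀ m, 0 < s m := fun m => Real.exp_pos _
  have hS0 : 0 ≤ S := tsum_nonneg (fun m => (hs0 m).le)
  set M : ℕ → ℕ := fun n => ⌈(S + 1) * Real.exp ((2 * K + 2) * rho (a n))⌉₊ with hM
  have hMlow : ∀ n, (S + 1) * Real.exp ((2 * K + 2) * rho (a n)) ≤ M n := fun n => Nat.le_ceil _
  have hE1 : ∀ n, 1 ≤ Real.exp ((2 * K + 2) * rho (a n)) := by
    intro n
    apply Real.one_le_exp
    have := rho_nonneg (a n)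
    positivity
  have hMup : ∀ n, (M n : ℝ) ≤ (S + 2) * Real.exp ((2 * K + 2) * rho (a n)) := by
    intro n
    have h1 : (M n : ℝ) < (S + 1) * Real.exp ((2 * K + 2) * rho (a n)) + 1 :=
      Nat.ceil_lt_add_one (by positivity)
    have := hE1 n
    nlinarith
  have hMpos : ∀ n, (0 : ℝ) < M n := fun n =>
    lt_of_lt_of_le (by positivity) (hMlow n)
  have hM1 : ∀ n, 1 ≤ M n := by
    intro n
    have := hMpos n
    exact_mod_cast this
  have hse : ∀ n, s n = (Real.exp ((2 * K + 2) * rho (a n)))⁻¹ := by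
    intro n
    rw [hs]
    simp only
    rw [Real.exp_neg]
  obtain ⟨θ, hθ1, hθ2⟩ := choose_coeff M hM1 w hw0 b hbd hbs (by
    intro F
    have h1 : ∑ n ∈ F, (1 : ℝ) / (M n + 1) ≤ ∑ n ∈ F, s n / (S + 1) := by
      apply Finset.sum_le_sum
      intro n _
      rw [hse n, ← one_div, div_div]
      apply one_div_le_one_div_of_le (by positivity)
      have := hMlow n
      rw [mul_comm]
      linarith
    have h2 : ∑ n ∈ F, s n / (S + 1) = (∑ n ∈ F, s n) / (S + 1) := by
      rw [Finset.sum_div]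
    have h3 : ∑ n ∈ F, s n ≤ S := hsumm.sum_le_tsum F (fun n _ => (hs0 n).le)
    have h4 : (∑ n ∈ F, s n) / (S + 1) < 1 := by
      rw [div_lt_one (by positivity)]
      linarith
    linarith)
  set f : ℂ → ℂ := fun z => ∑' m, ((θ m * w m : ℝ) : ℂ) * h m z with hf
  have hfd : Differentiable ℂ f := locSum_diff (hdF θ) (hloc θ hθ1)
  have hfi : ∀ j z, iteratedDeriv j f z = ∑' m, ((θ m * w m : ℝ) : ℂ) * iteratedDeriv j (h m) z := by
    intro j z
    rw [hf, locSum_iter_eq (hdF θ) (hloc θ hθ1) j]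
    simp only
    congr 1
    funext m
    exact hit θ m j z
  have hval : ∀ n, ‖iteratedDeriv (p n) f (a n)‖ / ((p n).factorial : ℝ) =
      ‖∑' m, ((θ m * w m : ℝ) : ℂ) * b m n‖ := by
    intro n
    have h1 : ∑' m, ((θ m * w m : ℝ) : ℂ) * b m n =
        iteratedDeriv (p n) f (a n) / ((p n).factorial : ℂ) := by
      rw [hfi, ← tsum_div_const]
      congr 1
      funext m
      rw [hbdef]
      simp only
      rw [mul_div_assoc]
    rw [h1, norm_div, Complex.norm_natCast]
  have hlow : ∀ n, 1 / (2 * (S + 2)) * Real.exp (-((4 * K + 5) * rho (a n))) ≤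
      ‖iteratedDeriv (p n) f (a n)‖ / ((p n).factorial : ℝ) := by
    intro n
    rw [hval n]
    refine le_trans ?_ (hθ2 n)
    have h1 : 1 / (2 * (S + 2)) * Real.exp (-((4 * K + 5) * rho (a n))) =
        w n / (2 * ((S + 2) * Real.exp ((2 * K + 2) * rho (a n)))) := by
      rw [hw]
      simp only
      rw [show -((4 * K + 5) * rho (a n)) = -((2 * K + 3) * rho (a n)) -
        (2 * K + 2) * rho (a n) by ring, Real.exp_sub]
      have : Real.exp ((2 * K + 2) * rho (a n)) ≠ 0 := (Real.exp_pos _).ne'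
      field_simp
    rw [h1]
    have h2 := hMup n
    have h3 := hMpos n
    have h4 := (hw0 n).le
    gcongr
  refine ⟨f, ⟨hfd, 4 * S * K + 1, by positivity, K + 1, by positivity, ?_⟩, ?_, ?_,
    1 / (2 * (S + 2)), by positivity, 4 * K + 5, by positivity, hlow⟩
  · intro z
    have h1 : ‖f z‖ ≤ ∑' m, 2 * s m * ((1 + ‖z‖) * (K * Real.exp (K * rho z))) := by
      apply tsum_of_norm_bounded ((hsumm.mul_left 2).mul_right _).hasSum
      intro m
      exact hb0 θ hθ1 m z
    rw [tsum_mul_right, tsum_mul_left] at h1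
    refine h1.trans ?_
    have h2 := one_add_norm_le z
    have h3 : Real.exp ((K + 1) * rho z) = Real.exp (rho z) * Real.exp (K * rho z) := by
      rw [← Real.exp_add]
      congr 1
      ring
    rw [h3]
    have h4 := Real.exp_pos (rho z)
    have h5 := Real.exp_pos (K * rho z)
    calc 2 * S * ((1 + ‖z‖) * (K * Real.exp (K * rho z)))
        ≤ 2 * S * ((2 * Real.exp (rho z)) * (K * Real.exp (K * rho z))) := by gcongr
      _ = 4 * S * K * (Real.exp (rho z) * Real.exp (K * rho z)) := by ring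
      _ ≤ (4 * S * K + 1) * (Real.exp (rho z) * Real.exp (K * rho z)) := by
        gcongr
        linarith
  · by_contra hcon
    push Not at hcon
    have h1 : f = fun _ => 0 := funext hcon
    have h2 := hlow 0
    rw [h1, iteratedDeriv_fun_const_zero] at h2
    simp only [norm_zero, zero_div] at h2
    have : 0 < 1 / (2 * (S + 2)) * Real.exp (-((4 * K + 5) * rho (a 0))) := by positivity
    linarith
  · intro n k hk
    rw [hfi]
    have : (fun m => ((θ m * w m : ℝ) : ℂ) * iteratedDeriv k (h m) (a n)) = fun _ => 0 := by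
      funext m
      rw [hhj m n k hk, mul_zero]
    rw [this, tsum_zero]

end

end Pool.Agent.V1174.UI
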