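import Pool.Agent.V1174.UI.Lim

/-!
# Uniform interpolation of the unit data (Baire category)
-/

set_option autoImplicit false

open Filter Topology Metric Set

namespace Pool.Agent.V1174.UI

noncomputable section

/-- the weight -/
def rho (z : ℂ) : ℝ := |z.im| + Real.log (1 + ‖z‖ ^ 2)

/-- the algebra -/
def E (f : ℂ → ℂ) : Prop := Differentiable ℂ f ∧
  ∃ A > (0:ℝ), ∃ B > (0:ℝ), ∀ z : ℂ, ‖f z‖ ≤ A * Real.exp (B * rho z)

lemma rho_nonneg (z : ℂ) : 0 ≤ rho z := by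
  unfold rho
  have := Real.log_nonneg (x := 1 + ‖z‖ ^ 2) (by nlinarith [sq_nonneg ‖z‖])
  have := abs_nonneg z.im
  linarith

lemma one_add_sq_le (z : ℂ) : 1 + ‖z‖ ^ 2 ≤ Real.exp (rho z) := by
  unfold rho
  rw [Real.exp_add, Real.exp_log (by positivity)]
  have h1 : 1 ≤ Real.exp |z.im| := Real.one_le_exp (abs_nonneg _)
  have h2 : 0 ≤ 1 + ‖z‖ ^ 2 := by positivity
  nlinarith

lemma one_add_norm_le (z : ℂ) : 1 + ‖z‖ ≤ 2 * Real.exp (rho z) := by
  have h1 := one_add_sq_le z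
  nlinarith [sq_nonneg (‖z‖ - 1)]

lemma rho_le_of_norm_le {z : ℂ} {R : ℝ} (h : ‖z‖ ≤ R) : rho z ≤ R + Real.log (1 + R ^ 2) := by
  unfold rho
  have h1 : |z.im| ≤ R := (Complex.abs_im_le_norm z).trans h
  have h2 : Real.log (1 + ‖z‖ ^ 2) ≤ Real.log (1 + R ^ 2) := by
    apply Real.log_le_log (by positivity)
    gcongr
  linarith

lemma rho_near {z a : ℂ} (h : ‖z - a‖ ≤ 1) : rho z ≤ rho a + 3 := by
  unfold rho
  have h1 : |z.im| ≤ |a.im| + 1 := by
    have h2 : |(z - a).im| ≤ 1 := (Complex.abs_im_le_norm _).trans h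
    rw [Complex.sub_im] at h2
    have h3 := abs_add_le (z.im - a.im) a.im
    rw [sub_add_cancel] at h3
    linarith
  have h2 : ‖z‖ ≤ ‖a‖ + 1 := by
    have := norm_add_le (z - a) a
    rw [sub_add_cancel] at this
    linarith
  have h3 : Real.log (1 + ‖z‖ ^ 2) ≤ Real.log (1 + ‖a‖ ^ 2) + 2 := by
    have h4 : 1 + ‖z‖ ^ 2 ≤ (1 + ‖a‖ ^ 2) * Real.exp 2 := by
      have h5 : (3 : ℝ) ≤ Real.exp 2 := by
        have := Real.add_one_le_exp (2 : ℝ)
        linarith
      have h6 : 1 + ‖z‖ ^ 2 ≤ 1 + (‖a‖ + 1) ^ 2 := by gcongr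
      nlinarith [sq_nonneg (‖a‖ - 1), norm_nonneg a, sq_nonneg ‖a‖]
    calc Real.log (1 + ‖z‖ ^ 2) ≤ Real.log ((1 + ‖a‖ ^ 2) * Real.exp 2) :=
          Real.log_le_log (by positivity) h4
      _ = _ := by rw [Real.log_mul (by positivity) (by positivity), Real.log_exp]
  linarith

/-- bounded with constant `K` -/
def Bd (K : ℝ) (g : ℂ → ℂ) : Prop := Differentiable ℂ g ∧ ∀ z, ‖g z‖ ≤ K * Real.exp (K * rho z)

lemma Bd.mono {K K' : ℝ} {g : ℂ → ℂ} (h : Bd K g) (hK0 : 0 ≤ K) (hK : K ≤ K') : Bd K' g := by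
  refine ⟨h.1, fun z => (h.2 z).trans ?_⟩
  have := rho_nonneg z
  have := hK0.trans hK
  gcongr

variable (a : ℕ → ℂ) (p : ℕ → ℕ)

/-- the unit data -/
def UnitDat (n κ : ℕ) (g : ℂ → ℂ) : Prop :=
  ∀ m j, j < p m → iteratedDeriv j g (a m) / (j.factorial : ℂ) = if m = n ∧ j = κ then 1 else 0

/-- universal interpolation -/
def Univ : Prop := ∀ lam : ℕ → ℕ → ℂ,
  (∃ A > (0:ℝ), ∃ B > (0:ℝ), ∀ n, ∀ κ < p n, ‖lam n κ‖ ≤ A * Real.exp (B * rho (a n))) →
  ∃ g : ℂ → ℂ, E g ∧ ∀ n, ∀ κ < p n, iteratedDeriv κ g (a n) / (κ.factorial : ℂ) = lam n κ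

/-- data interpolated with constant `k` -/
def W (k : ℕ) : Set (ℕ × ℕ → unitInterval) :=
  {θ | ∃ g : ℂ → ℂ, Bd k g ∧ ∀ m j, j < p m →
    iteratedDeriv j g (a m) / (j.factorial : ℂ) = (((θ (m, j) : unitInterval) : ℝ) : ℂ)}

lemma isClosed_W (k : ℕ) : IsClosed (W a p k) := by
  rw [isClosed_iff_ultrafilter]
  intro θ u hu hW
  classical
  have h0 : ∀ θ' : ℕ × ℕ → unitInterval, ∃ g : ℂ → ℂ, Bd k g ∧ (θ' ∈ W a p k → ∀ m j, j < p m →
      iteratedDeriv j g (a m) / (j.factorial : ℂ) = (((θ' (m, j) : unitInterval) : ℝ) : ℂ)) := by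
    intro θ'
    by_cases h : θ' ∈ W a p k
    · obtain ⟨g, hg1, hg2⟩ := h
      exact ⟨g, hg1, fun _ => hg2⟩
    · refine ⟨fun _ => 0, ⟨differentiable_const _, fun z => ?_⟩, fun h' => absurd h' h⟩
      simp only [norm_zero]
      positivity
  choose G hG1 hG2 using h0
  obtain ⟨f, hf1, hf2, hf3⟩ := montel u G (fun i => (hG1 i).1) (by
    intro R
    refine ⟨k * Real.exp (k * (R + Real.log (1 + R ^ 2))), fun i z hz => ((hG1 i).2 z).trans ?_⟩
    have := rho_le_of_norm_le hz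
    gcongr)
  refine ⟨f, ⟨hf1, fun z => ?_⟩, fun m j hj => ?_⟩
  · exact le_of_tendsto (hf2 z).norm (Eventually.of_forall fun i => (hG1 i).2 z)
  · have h1 : Tendsto (fun i => iteratedDeriv j (G i) (a m) / (j.factorial : ℂ)) u
        (𝓝 (iteratedDeriv j f (a m) / (j.factorial : ℂ))) := (hf3 j (a m)).div_const _
    have h2 : Tendsto (fun i : ℕ × ℕ → unitInterval => (((i (m, j) : unitInterval) : ℝ) : ℂ)) u
        (𝓝 (((θ (m, j) : unitInterval) : ℝ) : ℂ)) := by
      have hc : Continuous (fun i : ℕ × ℕ → unitInterval => (((i (m, j) : unitInterval) : ℝ) : ℂ)) :=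
        Complex.continuous_ofReal.comp (continuous_subtype_val.comp (continuous_apply (m, j)))
      exact hc.continuousAt.tendsto.mono_left hu
    apply tendsto_nhds_unique h1
    apply h2.congr'
    filter_upwards [hW] with i hi
    exact (hG2 i hi m j hj).symm

lemma union_W (hU : Univ a p) : ⋃ k, W a p k = univ := by
  rw [eq_univ_iff_forall]
  intro θ
  obtain ⟨g, ⟨hg1, A, hA, B, hB, hg2⟩, hg3⟩ := hU (fun m j => (((θ (m, j) : unitInterval) : ℝ) : ℂ))
    ⟨1, one_pos, 1, one_pos, fun n κ _ => by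
      rw [Complex.norm_real, Real.norm_of_nonneg (θ (n, κ)).2.1]
      have h1 := (θ (n, κ)).2.2
      have h2 := Real.one_le_exp (rho_nonneg (a n))
      rw [one_mul, one_mul]
      exact h1.trans h2⟩
  obtain ⟨k, hk⟩ := exists_nat_ge (max A B)
  rw [mem_iUnion]
  refine ⟨k, g, ⟨hg1, fun z => (hg2 z).trans ?_⟩, hg3⟩
  have h1 : A ≤ k := (le_max_left _ _).trans hk
  have h2 : B ≤ k := (le_max_right _ _).trans hk
  have := rho_nonneg z
  gcongr

lemma iter_lin {g1 g0 : ℂ → ℂ} (h1 : Differentiable ℂ g1) (h0 : Differentiable ℂ g0) (c : ℂ)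
    (j : ℕ) (z : ℂ) : iteratedDeriv j (fun z => c * (g1 z - g0 z)) z =
      c * (iteratedDeriv j g1 z - iteratedDeriv j g0 z) := by
  have hd : Differentiable ℂ (fun z => g1 z - g0 z) := h1.sub h0
  rw [iteratedDeriv_const_mul_field]
  congr 1
  exact iteratedDeriv_fun_sub (h1.contDiff.contDiffAt) (h0.contDiff.contDiffAt)

/-- all unit data are interpolated with a common constant -/
theorem uniform_units (hU : Univ a p) :
    ∃ K : ℝ, 1 ≤ K ∧ ∀ n κ, κ < p n → ∃ g : ℂ → ℂ, Bd K g ∧ UnitDat a p n κ g := by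
  classical
  obtain ⟨k, θ0, hθ0⟩ := nonempty_interior_of_iUnion_of_closed (isClosed_W a p) (union_W a p hU)
  obtain ⟨I, u, hu1, hu2⟩ := isOpen_pi_iff.1 isOpen_interior θ0 hθ0
  have hsub : (I : Set (ℕ × ℕ)).pi u ⊆ W a p k := hu2.trans interior_subset
  -- outside the finite set
  have hout : ∀ n κ, κ < p n → (n, κ) ∉ I → ∃ g : ℂ → ℂ, Bd (4 * k) g ∧ UnitDat a p n κ g := by
    intro n κ hκ hI
    obtain ⟨v, hv⟩ : ∃ v : unitInterval, (1 : ℝ) / 2 ≤ |(v : ℝ) - θ0 (n, κ)| := by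
      rcases le_total ((θ0 (n, κ) : unitInterval) : ℝ) (1 / 2) with h | h
      · refine ⟨1, ?_⟩
        rw [show (((1 : unitInterval) : unitInterval) : ℝ) = 1 from rfl]
        rw [abs_of_nonneg (by linarith)]
        linarith
      · refine ⟨0, ?_⟩
        rw [show (((0 : unitInterval) : unitInterval) : ℝ) = 0 from rfl]
        rw [abs_of_nonpos (by linarith)]
        linarith
    have m0 : θ0 ∈ W a p k := hsub (fun i hi => (hu1 i hi).2)
    have m1 : Function.update θ0 (n, κ) v ∈ W a p k := by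
      apply hsub
      intro i hi
      have : i ≠ (n, κ) := by
        rintro rfl
        exact hI hi
      rw [Function.update_of_ne this]
      exact (hu1 i hi).2
    obtain ⟨g0, ⟨a1, a2⟩, a3⟩ := m0
    obtain ⟨g1, ⟨b1, b2⟩, b3⟩ := m1
    set t : ℝ := (v : ℝ) - θ0 (n, κ) with ht
    have ht0 : t ≠ 0 := by
      intro h
      rw [h, abs_zero] at hv
      norm_num at hv
    refine ⟨fun z => (t : ℂ)⁻¹ * (g1 z - g0 z), ⟨(b1.sub a1).const_mul _, fun z => ?_⟩, ?_⟩
    · rw [norm_mul, norm_inv, Complex.norm_real, Real.norm_eq_abs]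
      have h1 : ‖g1 z - g0 z‖ ≤ 2 * (k * Real.exp (k * rho z)) := by
        have := norm_sub_le (g1 z) (g0 z)
        have := a2 z
        have := b2 z
        linarith
      have h2 : |t|⁻¹ ≤ 2 := by
        rw [inv_le_comm₀ (by positivity) (by norm_num)]
        linarith
      have h3 := rho_nonneg z
      calc |t|⁻¹ * ‖g1 z - g0 z‖ ≤ 2 * (2 * (k * Real.exp (k * rho z))) := by gcongr
        _ = 4 * k * Real.exp (k * rho z) := by ring
        _ ≤ 4 * k * Real.exp (4 * k * rho z) := by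
          gcongr
          have : (0 : ℝ) ≤ k := Nat.cast_nonneg k
          linarith
    · intro m j hj
      rw [iter_lin b1 a1, mul_div_assoc, sub_div, b3 m j hj, a3 m j hj]
      by_cases h : (m, j) = (n, κ)
      · have h' : m = n ∧ j = κ := by simpa using h
        rw [if_pos h', h, Function.update_self, ← Complex.ofReal_sub, ← ht]
        exact inv_mul_cancel₀ (by exact_mod_cast ht0)
      · have h' : ¬ (m = n ∧ j = κ) := by simpa using h
        rw [if_neg h', Function.update_of_ne h, sub_self, mul_zero]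
  -- each single one
  have hone : ∀ i : ℕ × ℕ, ∃ K : ℝ, 0 ≤ K ∧ (i.2 < p i.1 → ∃ g : ℂ → ℂ, Bd K g ∧ UnitDat a p i.1 i.2 g) := by
    intro i
    obtain ⟨g, ⟨hg1, A, hA, B, hB, hg2⟩, hg3⟩ := hU (fun m j => if m = i.1 ∧ j = i.2 then 1 else 0)
      ⟨1, one_pos, 1, one_pos, fun n κ _ => by
        have h2 := Real.one_le_exp (rho_nonneg (a n))
        rw [one_mul, one_mul]
        split_ifs
        · simpa using h2
        · rw [norm_zero]; linarith⟩
    refine ⟨max A B, le_max_of_le_left hA.le, fun _ => ⟨g, ⟨hg1, fun z => (hg2 z).trans ?_⟩, hg3⟩⟩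
    have h1 : A ≤ max A B := le_max_left _ _
    have h2 : B ≤ max A B := le_max_right _ _
    have := rho_nonneg z
    gcongr
  choose Kf hKf0 hKf using hone
  refine ⟨1 + 4 * k + ∑ i ∈ I, Kf i, ?_, ?_⟩
  · have h1 : (0 : ℝ) ≤ k := Nat.cast_nonneg k
    have h2 : 0 ≤ ∑ i ∈ I, Kf i := Finset.sum_nonneg (fun i _ => hKf0 i)
    linarith
  · intro n κ hκ
    have h1 : (0 : ℝ) ≤ k := Nat.cast_nonneg k
    have h2 : 0 ≤ ∑ i ∈ I, Kf i := Finset.sum_nonneg (fun i _ => hKf0 i)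
    by_cases hI : (n, κ) ∈ I
    · obtain ⟨g, hg1, hg2⟩ := hKf (n, κ) hκ
      refine ⟨g, hg1.mono (hKf0 _) ?_, hg2⟩
      have := Finset.single_le_sum (fun i _ => hKf0 i) hI
      linarith
    · obtain ⟨g, hg1, hg2⟩ := hout n κ hκ hI
      refine ⟨g, hg1.mono (by linarith) (by linarith), hg2⟩

end

end Pool.Agent.V1174.UI
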