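import Mathlib

/-!
# Limits and sums of entire functions with all derivatives
-/

set_option autoImplicit false

open Filter Topology Metric Set

namespace Pool.Agent.V1174.UI

lemma diff_iter {f : ℂ → ℂ} (hf : Differentiable ℂ f) (j : ℕ) :
    Differentiable ℂ (iteratedDeriv j f) :=
  ContDiff.differentiable_iteratedDeriv (n := ((j + 1 : ℕ) : WithTop ℕ∞)) j hf.contDiff
    (by exact_mod_cast Nat.lt_succ_self j)

/-- uniformly bounded holomorphic functions are locally Lipschitz, uniformly -/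
theorem lip_of_bdd {F : ℂ → ℂ} {x : ℂ} {R M : ℝ} (hd : DifferentiableOn ℂ F (ball x R))
    (hb : ∀ z ∈ ball x R, ‖F z‖ ≤ M) : ∀ z ∈ ball x R, dist (F z) (F x) ≤ (2 * M) / R * dist z x := by
  intro z hz
  have hR : 0 < R := lt_of_le_of_lt dist_nonneg hz
  apply Complex.dist_le_div_mul_dist_of_mapsTo_ball hd _ hz
  intro w hw
  rw [mem_closedBall, dist_eq_norm]
  have h1 := hb w hw
  have h2 := hb x (mem_ball_self hR)
  have h3 := norm_sub_le (F w) (F x)
  linarith

/-- locally bounded entire functions converging pointwise converge locally uniformly -/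
theorem tlu_pt {ι : Type*} {l : Filter ι} [l.NeBot]
    {F : ι → ℂ → ℂ} {f : ℂ → ℂ}
    (hd : ∀ i, Differentiable ℂ (F i)) (hb : ∀ R : ℝ, ∃ M : ℝ, ∀ i, ∀ z, ‖z‖ ≤ R → ‖F i z‖ ≤ M)
    (hp : ∀ z, Tendsto (fun i => F i z) l (𝓝 (f z))) :
    TendstoLocallyUniformlyOn F f l univ := by
  obtain ⟨i0⟩ : Nonempty ι := l.nonempty_of_neBot
  rw [Metric.tendstoLocallyUniformlyOn_iff]
  intro ε hε x _
  obtain ⟨M, hM'⟩ := hb (‖x‖ + 1)
  have hMb : ∀ i, ∀ z ∈ ball x 1, ‖F i z‖ ≤ M := by
    intro i z hz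
    apply hM' i z
    have h1 : ‖z - x‖ < 1 := by simpa [dist_eq_norm] using hz
    have h2 := norm_add_le (z - x) x
    rw [sub_add_cancel] at h2
    linarith
  have hM : 0 ≤ M := le_trans (norm_nonneg _) (hMb i0 x (mem_ball_self one_pos))
  set L : ℝ := (2 * M + 1) / 1 with hL
  have hLp : 0 < L := by positivity
  have key : ∀ i, ∀ z ∈ ball x 1, dist (F i z) (F i x) ≤ L * dist z x := by
    intro i z hz
    refine (lip_of_bdd ((hd i).differentiableOn) (fun w hw => hMb i w hw) z hz).trans ?_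
    rw [hL]
    gcongr
    linarith
  have keyf : ∀ z ∈ ball x 1, dist (f z) (f x) ≤ L * dist z x := by
    intro z hz
    have h1 : Tendsto (fun i => dist (F i z) (F i x)) l (𝓝 (dist (f z) (f x))) :=
      (hp z).dist (hp x)
    exact le_of_tendsto h1 (Eventually.of_forall fun i => key i z hz)
  refine ⟨ball x (min 1 (ε / (4 * L))), mem_nhdsWithin_of_mem_nhds (ball_mem_nhds _ (by positivity)), ?_⟩
  have hx' : ∀ᶠ i in l, dist (F i x) (f x) < ε / 4 := (Metric.tendsto_nhds.1 (hp x)) _ (by positivity)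
  filter_upwards [hx'] with i hi y hy
  have hy1 : y ∈ ball x 1 := ball_subset_ball (min_le_left _ _) hy
  have hy2 : dist y x < ε / (4 * L) := lt_of_lt_of_le hy (min_le_right _ _)
  have hy3 : L * dist y x < ε / 4 := by
    calc L * dist y x < L * (ε / (4 * L)) := by gcongr
      _ = ε / 4 := by field_simp
  have h1 := key i y hy1
  have h2 := keyf y hy1
  calc dist (f y) (F i y) ≤ dist (f y) (f x) + dist (f x) (F i x) + dist (F i x) (F i y) :=
        dist_triangle4 _ _ _ _
    _ < ε := by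
        rw [dist_comm (f x), dist_comm (F i x) (F i y)]
        linarith

lemma tlu_iter {ι : Type*} {l : Filter ι} [l.NeBot] {F : ι → ℂ → ℂ} {f : ℂ → ℂ}
    (hd : ∀ i, Differentiable ℂ (F i)) (h : TendstoLocallyUniformlyOn F f l univ) (j : ℕ) :
    TendstoLocallyUniformlyOn (fun i => iteratedDeriv j (F i)) (iteratedDeriv j f) l univ := by
  induction j with
  | zero => simpa only [iteratedDeriv_zero] using h
  | succ j ih =>
    have h1 := ih.deriv (Eventually.of_forall fun i => (diff_iter (hd i) j).differentiableOn)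
      isOpen_univ
    have h2 : (deriv ∘ fun i => iteratedDeriv j (F i)) = fun i => iteratedDeriv (j + 1) (F i) := by
      funext i
      simp only [Function.comp, iteratedDeriv_succ]
    rw [h2] at h1
    rw [iteratedDeriv_succ]
    exact h1

/-- Montel along ultrafilters -/
lemma montel {ι : Type*} (l : Ultrafilter ι) (F : ι → ℂ → ℂ)
    (hd : ∀ i, Differentiable ℂ (F i)) (hb : ∀ R : ℝ, ∃ M : ℝ, ∀ i, ∀ z, ‖z‖ ≤ R → ‖F i z‖ ≤ M) :
    ∃ f : ℂ → ℂ, Differentiable ℂ f ∧ (∀ z, Tendsto (fun i => F i z) l (𝓝 (f z))) ∧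
      ∀ j z, Tendsto (fun i => iteratedDeriv j (F i) z) l (𝓝 (iteratedDeriv j f z)) := by
  have hpt : ∀ z : ℂ, ∃ y : ℂ, Tendsto (fun i => F i z) l (𝓝 y) := by
    intro z
    obtain ⟨M, hM⟩ := hb ‖z‖
    have hc : IsCompact (closedBall (0 : ℂ) M) := isCompact_closedBall _ _
    obtain ⟨y, -, hy⟩ := hc.ultrafilter_le_nhds (l.map (fun i => F i z)) (by
      rw [le_principal_iff]
      change (fun i => F i z) ⁻¹' _ ∈ (l : Filter ι)
      exact univ_mem' (fun i => mem_closedBall_zero_iff.2 (hM i z le_rfl)))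
    exact ⟨y, hy⟩
  choose f hf using hpt
  have h1 := tlu_pt hd hb hf
  have h2 : Differentiable ℂ f :=
    differentiableOn_univ.1 (h1.differentiableOn
      (Eventually.of_forall fun i => (hd i).differentiableOn) isOpen_univ)
  exact ⟨f, h2, hf, fun j z => (tlu_iter hd h1 j).tendsto_at (mem_univ z)⟩

/-- families of entire functions summable locally uniformly -/
def LocSum (F : ℕ → ℂ → ℂ) : Prop :=
  ∀ R : ℝ, ∃ u : ℕ → ℝ, Summable u ∧ ∀ m z, ‖z‖ ≤ R → ‖F m z‖ ≤ u m

lemma locSum_deriv {F : ℕ → ℂ → ℂ} (hd : ∀ m, Differentiable ℂ (F m)) (h : LocSum F) :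
    LocSum (fun m => deriv (F m)) := by
  intro R
  obtain ⟨u, hu, hF⟩ := h (R + 1)
  refine ⟨u, hu, fun m z hz => ?_⟩
  have h1 := Complex.norm_deriv_le_of_forall_mem_sphere_norm_le (c := z) (R := 1) (C := u m)
    (f := F m) one_pos (hd m).diffContOnCl (by
      intro w hw
      apply hF m w
      have h1 : ‖w - z‖ = 1 := by simpa [dist_eq_norm] using hw
      have h2 := norm_add_le (w - z) z
      rw [sub_add_cancel] at h2
      linarith)
  simpa using h1

lemma locSum_iter {F : ℕ → ℂ → ℂ} (hd : ∀ m, Differentiable ℂ (F m)) (h : LocSum F) (j : ℕ) :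
    LocSum (fun m => iteratedDeriv j (F m)) := by
  induction j with
  | zero => simpa only [iteratedDeriv_zero] using h
  | succ j ih =>
    have := locSum_deriv (fun m => diff_iter (hd m) j) ih
    simpa only [iteratedDeriv_succ] using this

lemma locSum_diff {F : ℕ → ℂ → ℂ} (hd : ∀ m, Differentiable ℂ (F m)) (h : LocSum F) :
    Differentiable ℂ (fun z => ∑' m, F m z) := by
  intro z
  obtain ⟨u, hu, hF⟩ := h (‖z‖ + 1)
  have h1 := Complex.differentiableOn_tsum_of_summable_norm (U := ball (0 : ℂ) (‖z‖ + 1)) hu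
    (fun m => (hd m).differentiableOn) isOpen_ball (fun m w hw => hF m w (by
      have : ‖w‖ < ‖z‖ + 1 := by simpa using hw
      exact this.le))
  exact h1.differentiableAt (isOpen_ball.mem_nhds (by simp))

lemma locSum_deriv_eq {F : ℕ → ℂ → ℂ} (hd : ∀ m, Differentiable ℂ (F m)) (h : LocSum F) :
    deriv (fun z => ∑' m, F m z) = fun z => ∑' m, deriv (F m) z := by
  funext z
  obtain ⟨u, hu, hF⟩ := h (‖z‖ + 1)
  have h1 := Complex.hasSum_deriv_of_summable_norm (U := ball (0 : ℂ) (‖z‖ + 1)) hu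
    (fun m => (hd m).differentiableOn) isOpen_ball (fun m w hw => hF m w (by
      have : ‖w‖ < ‖z‖ + 1 := by simpa using hw
      exact this.le)) (z := z) (by simp)
  exact h1.tsum_eq.symm

lemma locSum_iter_eq {F : ℕ → ℂ → ℂ} (hd : ∀ m, Differentiable ℂ (F m)) (h : LocSum F) (j : ℕ) :
    iteratedDeriv j (fun z => ∑' m, F m z) = fun z => ∑' m, iteratedDeriv j (F m) z := by
  induction j with
  | zero => simp only [iteratedDeriv_zero]
  | succ j ih =>
    rw [iteratedDeriv_succ, ih, locSum_deriv_eq (fun m => diff_iter (hd m) j) (locSum_iter hd h j)]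
    simp only [iteratedDeriv_succ]

/-- `iteratedDeriv` of `(z - a) g` -/
lemma iter_sub_mul {g : ℂ → ℂ} (hg : Differentiable ℂ g) (a : ℂ) (j : ℕ) :
    iteratedDeriv j (fun z => (z - a) * g z) =
      fun z => (z - a) * iteratedDeriv j g z + j * iteratedDeriv (j - 1) g z := by
  induction j with
  | zero =>
    funext z
    simp
  | succ j ih =>
    rw [iteratedDeriv_succ, ih]
    funext z
    have h1 : DifferentiableAt ℂ (iteratedDeriv j g) z := diff_iter hg j z
    have h2 : DifferentiableAt ℂ (iteratedDeriv (j - 1) g) z := diff_iter hg (j - 1) z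
    have h3 : HasDerivAt (fun z => (z - a) * iteratedDeriv j g z + j * iteratedDeriv (j - 1) g z)
        (1 * iteratedDeriv j g z + (z - a) * deriv (iteratedDeriv j g) z +
          j * deriv (iteratedDeriv (j - 1) g) z) z :=
      (((hasDerivAt_id z).sub_const a).mul h1.hasDerivAt).add (h2.hasDerivAt.const_mul _)
    rw [h3.deriv]
    rcases j with _ | j
    · simp only [iteratedDeriv_succ, iteratedDeriv_zero]
      simp
      ring
    · simp only [Nat.add_sub_cancel, iteratedDeriv_succ]
      push_cast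
      ring

end Pool.Agent.V1174.UI
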