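import Pool.Agent.V1174.UI.Bai

/-!
# Separation of the points and convergence of `∑ exp (-c ρ(a_n))`
-/

set_option autoImplicit false

open Filter Topology Metric Set MeasureTheory

namespace Pool.Agent.V1174.UI

noncomputable section

variable {a : ℕ → ℂ} {p : ℕ → ℕ} {K : ℝ}

/-- separation radius -/
def rad (K : ℝ) (z : ℂ) : ℝ := Real.exp (-(K * (rho z + 3))) / (4 * K)

lemma rad_pos (hK : 1 ≤ K) (z : ℂ) : 0 < rad K z := by
  unfold rad
  positivity

lemma rad_le (hK : 1 ≤ K) (z : ℂ) : rad K z ≤ 1 / 4 := by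
  unfold rad
  have h1 : Real.exp (-(K * (rho z + 3))) ≤ 1 := by
    rw [Real.exp_le_one_iff]
    have := rho_nonneg z
    nlinarith
  rw [div_le_div_iff₀ (by positivity) (by norm_num)]
  nlinarith

lemma separated (_hinj : Function.Injective a) (hp : ∀ n, 1 ≤ p n) (hK : 1 ≤ K)
    (hU : ∀ n κ, κ < p n → ∃ g : ℂ → ℂ, Bd K g ∧ UnitDat a p n κ g) {n m : ℕ} (hnm : n ≠ m) :
    2 * rad K (a n) ≤ ‖a m - a n‖ := by
  obtain ⟨g, hg1, hg2⟩ := hU n 0 (hp n)
  have h1 : g (a n) = 1 := by
    have := hg2 n 0 (hp n)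
    simpa using this
  have h0 : g (a m) = 0 := by
    have := hg2 m 0 (hp m)
    simpa [hnm.symm] using this
  rcases lt_or_ge ‖a m - a n‖ 1 with hlt | hge
  · have h2 := lip_of_bdd (x := a n) (R := 1) (M := K * Real.exp (K * (rho (a n) + 3)))
      hg1.1.differentiableOn (by
        intro z hz
        refine (hg1.2 z).trans ?_
        have h3 : rho z ≤ rho (a n) + 3 := by
          apply rho_near
          have : ‖z - a n‖ < 1 := by simpa [dist_eq_norm] using hz
          exact this.le
        gcongr) (a m) (by simpa [dist_eq_norm] using hlt)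
    rw [h0, h1, dist_eq_norm, dist_eq_norm, zero_sub, norm_neg, norm_one, div_one] at h2
    have h3 : 2 * rad K (a n) * (2 * (K * Real.exp (K * (rho (a n) + 3)))) = 1 := by
      unfold rad
      rw [Real.exp_neg]
      field_simp
      norm_num
    have h4 : 0 < 2 * (K * Real.exp (K * (rho (a n) + 3))) := by positivity
    by_contra hcon
    rw [not_le] at hcon
    have : 2 * (K * Real.exp (K * (rho (a n) + 3))) * ‖a m - a n‖ <
        2 * (K * Real.exp (K * (rho (a n) + 3))) * (2 * rad K (a n)) := by gcongr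
    nlinarith
  · have := rad_le hK (a n)
    linarith

lemma summable_weights (hinj : Function.Injective a) (hp : ∀ n, 1 ≤ p n) (hK : 1 ≤ K)
    (hU : ∀ n κ, κ < p n → ∃ g : ℂ → ℂ, Bd K g ∧ UnitDat a p n κ g) :
    Summable (fun n => Real.exp (-((2 * K + 2) * rho (a n)))) := by
  have hint : Integrable (fun z : ℂ => (1 + ‖z‖) ^ (-(3 : ℝ))) := by
    apply integrable_one_add_norm
    rw [Complex.finrank_real_complex]
    norm_num
  have hmeas : ∀ n, MeasurableSet (ball (a n) (rad K (a n))) := fun n => measurableSet_ball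
  have hdisj : Pairwise (Function.onFun Disjoint fun n => ball (a n) (rad K (a n))) := by
    intro n m hnm
    apply ball_disjoint_ball
    have h1 := separated hinj hp hK hU hnm
    have h2 := separated hinj hp hK hU hnm.symm
    rw [dist_eq_norm]
    rw [norm_sub_rev] at h1
    linarith
  have hs := (hasSum_integral_iUnion (f := fun z : ℂ => (1 + ‖z‖) ^ (-(3 : ℝ))) hmeas hdisj
    hint.integrableOn).summable
  have hlow : ∀ n, Real.pi / (1024 * K ^ 2) * Real.exp (-(6 * K)) *
      Real.exp (-((2 * K + 2) * rho (a n))) ≤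
      ∫ z in ball (a n) (rad K (a n)), (1 + ‖z‖) ^ (-(3 : ℝ)) := by
    intro n
    set r := rad K (a n) with hr
    have hr0 : 0 < r := rad_pos hK _
    have hr1 : r ≤ 1 / 4 := rad_le hK _
    have hvol : (volume (ball (a n) r)).toReal = Real.pi * r ^ 2 := by
      rw [Complex.volume_ball]
      simp [hr0.le]
      ring
    have hpt : ∀ z ∈ ball (a n) r, Real.exp (-(2 * rho (a n))) / 64 ≤ (1 + ‖z‖) ^ (-(3 : ℝ)) := by
      intro z hz
      have h1 : ‖z - a n‖ < r := by simpa [dist_eq_norm] using hz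
      have h2 : ‖z‖ ≤ ‖a n‖ + 1 := by
        have := norm_add_le (z - a n) (a n)
        rw [sub_add_cancel] at this
        linarith
      have h3 : (1 + ‖z‖) ^ 3 ≤ 64 * Real.exp (2 * rho (a n)) := by
        have h4 := one_add_sq_le (a n)
        have h5 : Real.exp (2 * rho (a n)) = Real.exp (rho (a n)) ^ 2 := by
          rw [← Real.exp_nat_mul]
          norm_num
        rw [h5]
        have h6 : (1 + ‖z‖) ^ 3 ≤ (2 + ‖a n‖) ^ 3 :=
          pow_le_pow_left₀ (by positivity) (by linarith) 3
        have h7 : (2 + ‖a n‖) ^ 3 ≤ (2 + ‖a n‖) ^ 4 := by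
          apply pow_le_pow_right₀ _ (by norm_num)
          have := norm_nonneg (a n)
          linarith
        have h8 : (2 + ‖a n‖) ^ 2 ≤ 8 * (1 + ‖a n‖ ^ 2) := by
          nlinarith [sq_nonneg (‖a n‖ - 1), norm_nonneg (a n)]
        have h9 : (2 + ‖a n‖) ^ 4 ≤ (8 * (1 + ‖a n‖ ^ 2)) ^ 2 := by
          calc (2 + ‖a n‖) ^ 4 = ((2 + ‖a n‖) ^ 2) ^ 2 := by ring
            _ ≤ _ := by gcongr
        have h10 : (8 * (1 + ‖a n‖ ^ 2)) ^ 2 ≤ 64 * Real.exp (rho (a n)) ^ 2 := by
          calc (8 * (1 + ‖a n‖ ^ 2)) ^ 2 = 64 * (1 + ‖a n‖ ^ 2) ^ 2 := by ring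
            _ ≤ _ := by gcongr
        linarith
      rw [Real.rpow_neg (by positivity), show (3 : ℝ) = ((3 : ℕ) : ℝ) by norm_num,
        Real.rpow_natCast, Real.exp_neg, div_eq_mul_inv, ← mul_inv]
      apply inv_anti₀ (by positivity)
      linarith
    have h1 : ∫ z in ball (a n) r, Real.exp (-(2 * rho (a n))) / 64 ≤
        ∫ z in ball (a n) r, (1 + ‖z‖) ^ (-(3 : ℝ)) := by
      apply setIntegral_mono_on _ hint.integrableOn measurableSet_ball hpt
      exact integrableOn_const (by rw [Complex.volume_ball]; finiteness)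
    rw [setIntegral_const, measureReal_def, hvol, smul_eq_mul] at h1
    refine le_trans (le_of_eq ?_) h1
    rw [hr]
    unfold rad
    rw [div_pow, ← Real.exp_nat_mul]
    have h2 : Real.exp (-(6 * K)) * Real.exp (-((2 * K + 2) * rho (a n))) =
        Real.exp (((2 : ℕ) : ℝ) * (-(K * (rho (a n) + 3)))) * Real.exp (-(2 * rho (a n))) := by
      rw [← Real.exp_add, ← Real.exp_add]
      congr 1
      push_cast
      ring
    calc Real.pi / (1024 * K ^ 2) * Real.exp (-(6 * K)) * Real.exp (-((2 * K + 2) * rho (a n)))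
        = Real.pi / (1024 * K ^ 2) * (Real.exp (-(6 * K)) *
          Real.exp (-((2 * K + 2) * rho (a n)))) := by ring
      _ = _ := by
        rw [h2]
        field_simp
        norm_num
  have hs2 : Summable (fun n => Real.pi / (1024 * K ^ 2) * Real.exp (-(6 * K)) *
      Real.exp (-((2 * K + 2) * rho (a n)))) := by
    apply Summable.of_nonneg_of_le (fun n => by positivity) hlow hs
  have hc : Real.pi / (1024 * K ^ 2) * Real.exp (-(6 * K)) ≠ 0 := by positivity
  exact (summable_mul_left_iff hc).1 hs2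

end

end Pool.Agent.V1174.UI
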